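import Pool.Agent.Helper15.KPI.Deriv
import Pool.Agent.Helper15.KP.CellsMain

/-!
# The cells of the farthest-point power diagram

The cells of the maximum of the power functions of the points `x i` are the cells of the minimum
for the points `-x i` with other weights, so the matrices of `KP/Cells.lean` are reused.
-/

set_option autoImplicit false

open MeasureTheory Set

noncomputable section

namespace Pool.Agent.Helper15.KPI

open Pool.Agent.Helper15.KP

variable {m : ℕ}

/-- the reflected configuration -/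
def rx (x : Fin (m + 2) → Fin (m + 1) → ℝ) : Fin (m + 2) → Fin (m + 1) → ℝ := fun k l => - x k l

/-- the weights of the reflected configuration -/
def rR (x : Fin (m + 2) → Fin (m + 1) → ℝ) (R : Fin (m + 2) → ℝ) : Fin (m + 2) → ℝ :=
  fun k => 2 * ∑ l, x k l ^ 2 - R k

theorem hx_rx (x : Fin (m + 2) → Fin (m + 1) → ℝ) (R : Fin (m + 2) → ℝ) (i k : Fin (m + 2)) :
    hx (rx x) (rR x R) i k = - hx x R i k := by
  unfold hx rx rR
  have h1 : ∑ l, ((- x i l) ^ 2 - (- x k l) ^ 2) = ∑ l, x i l ^ 2 - ∑ l, x k l ^ 2 := by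
    rw [← Finset.sum_sub_distrib]
    exact Finset.sum_congr rfl fun l _ => by ring
  have h2 : ∑ l, (x i l ^ 2 - x k l ^ 2) = ∑ l, x i l ^ 2 - ∑ l, x k l ^ 2 := by
    rw [← Finset.sum_sub_distrib]
  rw [h1, h2]
  ring

theorem sum_rx (x : Fin (m + 2) → Fin (m + 1) → ℝ) (i j : Fin (m + 2)) (z : Fin (m + 1) → ℝ) :
    ∑ l, (rx x i l - rx x j l) * z l = - ∑ l, (x i l - x j l) * z l := by
  rw [← Finset.sum_neg_distrib]
  refine Finset.sum_congr rfl fun l _ => ?_
  unfold rx
  ring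

theorem cell_eqx (x : Fin (m + 2) → Fin (m + 1) → ℝ) (R : Fin (m + 2) → ℝ) (i j : Fin (m + 2))
    (e : Fin m → Fin (m + 2)) (he : ∀ k, k = i ∨ k = j ∨ ∃ a, e a = k) :
    {w : (Fin (m + 1) → ℝ) × ℝ | ∀ k, F (x k) (R k) w ≤ F (x i) (R i) w} =
      {w : (Fin (m + 1) → ℝ) × ℝ | ∀ a, hv (rx x) (rR x R) i j e a ≤
        (Mx (rx x) i j e).mulVec w.1 a} := by
  ext w
  simp only [mem_ofPred_eq]
  constructor
  · intro h a
    refine Fin.cases ?_ (fun b => ?_) a
    · rw [Mx_mulVec_zero, sum_rx]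
      have := h j
      have h2 := F_sub x R i j w
      simp only [hv, Fin.cons_zero, hx_rx]
      linarith
    · rw [Mx_mulVec_succ, sum_rx]
      have := h (e b)
      have h2 := F_sub x R i (e b) w
      simp only [hv, Fin.cons_succ, hx_rx]
      linarith
  · intro h k
    rcases he k with rfl | rfl | ⟨a, rfl⟩
    · exact le_rfl
    · have h1 := h 0
      rw [Mx_mulVec_zero, sum_rx] at h1
      have h2 := F_sub x R i k w
      simp only [hv, Fin.cons_zero, hx_rx] at h1
      linarith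
    · have h1 := h a.succ
      rw [Mx_mulVec_succ, sum_rx] at h1
      have h2 := F_sub x R i (e a) w
      simp only [hv, Fin.cons_succ, hx_rx] at h1
      linarith

theorem wall_Fx (x : Fin (m + 2) → Fin (m + 1) → ℝ) (R : Fin (m + 2) → ℝ) (i j : Fin (m + 2))
    (e : Fin m → Fin (m + 2)) (h1 : (Mx (rx x) i j e).det ≠ 0) (s : Fin m → ℝ) (y : ℝ) :
    F (x j) (R j) ((Mx (rx x) i j e)⁻¹.mulVec (Fin.cons 0 s + hv (rx x) (rR x R) i j e), y) =
    F (x i) (R i) ((Mx (rx x) i j e)⁻¹.mulVec (Fin.cons 0 s + hv (rx x) (rR x R) i j e), y) := by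
  have hu : IsUnit (Mx (rx x) i j e).det := isUnit_iff_ne_zero.2 h1
  have h2 := F_sub x R i j
    ((Mx (rx x) i j e)⁻¹.mulVec (Fin.cons 0 s + hv (rx x) (rR x R) i j e), y)
  simp only at h2
  have h3 := sum_rx x i j ((Mx (rx x) i j e)⁻¹.mulVec (Fin.cons 0 s + hv (rx x) (rR x R) i j e))
  rw [← Mx_mulVec_zero (rx x) i j e, Matrix.mulVec_mulVec, Matrix.mul_nonsing_inv _ hu,
    Matrix.one_mulVec] at h3
  have h4 : (Fin.cons 0 s + hv (rx x) (rR x R) i j e : Fin (m + 1) → ℝ) 0 = - hx x R i j := by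
    simp [hv, hx_rx]
  rw [h4] at h3
  linarith

/-- wall integral -/
def Wx (Φ : ℝ → ℝ) (x : Fin (m + 2) → Fin (m + 1) → ℝ) (R : Fin (m + 2) → ℝ) (i j : Fin (m + 2))
    (e : Fin m → Fin (m + 2)) : ℝ :=
  |(Mx (rx x) i j e).det|⁻¹ * ∫ w in {w : (Fin m → ℝ) × ℝ | ∀ a, 0 ≤ w.1 a},
    Φ (F (x i) (R i)
      ((Mx (rx x) i j e)⁻¹.mulVec (Fin.cons 0 w.1 + hv (rx x) (rR x R) i j e), w.2))

theorem Wx_swap (Φ : ℝ → ℝ) (x : Fin (m + 2) → Fin (m + 1) → ℝ) (R : Fin (m + 2) → ℝ)
    (i j : Fin (m + 2)) (e : Fin m → Fin (m + 2)) (h1 : (Mx (rx x) i j e).det ≠ 0) :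
    Wx Φ x R j i e = Wx Φ x R i j e := by
  unfold Wx
  congr 1
  · rw [Mx_swap (rx x) i j e, Matrix.det_mul, Ex_det]
    simp
  · congr 1
    funext w
    rw [wall_swap (rx x) (rR x R) i j e h1, wall_Fx x R i j e h1]

theorem affineIndependent_rx {x : Fin (m + 2) → Fin (m + 1) → ℝ} (hx : AffineIndependent ℝ x) :
    AffineIndependent ℝ (rx x) := by
  have h : rx x = (LinearEquiv.neg ℝ (M := Fin (m + 1) → ℝ)).toLinearMap.toAffineMap ∘ x := by
    funext k l
    simp [rx]
  rw [h]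
  exact hx.map' _ (LinearEquiv.neg ℝ (M := Fin (m + 1) → ℝ)).injective

theorem Wx_nonneg (κ : ℝ → ℝ) (hκ : ContDiff ℝ 2 κ) (hc : HasCompactSupport κ)
    (h0 : ∀ s, 0 ≤ κ s) (hm : 3 ≤ m) (x : Fin (m + 2) → Fin (m + 1) → ℝ) (R : Fin (m + 2) → ℝ)
    (i j : Fin (m + 2)) (e : Fin m → Fin (m + 2)) (h1 : (Mx (rx x) i j e).det ≠ 0) :
    0 ≤ Wx (fun s => - deriv κ s) x R i j e := by
  unfold Wx
  refine mul_nonneg (by positivity) ?_
  obtain ⟨k, rfl⟩ : ∃ k, m = k + 1 := ⟨m - 1, by omega⟩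
  have hu : IsUnit (Mx (rx x) i j e).det := isUnit_iff_ne_zero.2 h1
  let L : (Fin (k + 1) → ℝ) →ₗ[ℝ] (Fin (k + 1 + 1) → ℝ) :=
    (Mx (rx x) i j e)⁻¹.mulVecLin ∘ₗ
      { toFun := fun s => (Fin.cons 0 s : Fin (k + 1 + 1) → ℝ)
        map_add' := fun s t => by
          funext a
          induction a using Fin.cases with
          | zero => simp
          | succ a => simp
        map_smul' := fun r s => by
          funext a
          induction a using Fin.cases with
          | zero => simp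
          | succ a => simp }
  have hL : Function.Injective L := by
    intro s t hst
    have h2 : (Mx (rx x) i j e)⁻¹.mulVec (Fin.cons 0 s) = (Mx (rx x) i j e)⁻¹.mulVec (Fin.cons 0 t) := hst
    have h3 := congrArg (Mx (rx x) i j e).mulVec h2
    rw [Matrix.mulVec_mulVec, Matrix.mulVec_mulVec, Matrix.mul_nonsing_inv _ hu,
      Matrix.one_mulVec, Matrix.one_mulVec] at h3
    funext a
    have := congrFun h3 a.succ
    simpa using this
  have key := Pool.Agent.Helper36.KP.wall_nonneg_of Pool.Agent.Helper70.KP1.pos2 κ hκ hc h0 (k := k) (by omega) L hL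
    (x i - (Mx (rx x) i j e)⁻¹.mulVec (hv (rx x) (rR x R) i j e)) (R i)
  have hF : ∀ w : (Fin (k + 1) → ℝ) × ℝ,
      F (x i) (R i) ((Mx (rx x) i j e)⁻¹.mulVec (Fin.cons 0 w.1 + hv (rx x) (rR x R) i j e), w.2) =
      F (x i - (Mx (rx x) i j e)⁻¹.mulVec (hv (rx x) (rR x R) i j e)) (R i) (L w.1, w.2) := by
    intro w
    unfold F
    simp only [Matrix.mulVec_add, Pi.add_apply, Pi.sub_apply]
    congr 2
    refine Finset.sum_congr rfl fun l _ => ?_
    have : L w.1 l = (Mx (rx x) i j e)⁻¹.mulVec (Fin.cons 0 w.1) l := rfl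
    rw [this]
    ring
  simp only [hF]
  exact key

theorem cells_nonneg (κ : ℝ → ℝ) (hκ : ContDiff ℝ 2 κ) (hc : HasCompactSupport κ)
    (h0 : ∀ s, 0 ≤ κ s) {m : ℕ} (hm : 3 ≤ m)
    (x : Fin (m + 2) → Fin (m + 1) → ℝ) (hx : AffineIndependent ℝ x) (R : Fin (m + 2) → ℝ)
    (v : Fin (m + 2) → Fin (m + 1) → ℝ)
    (hvv : ∀ i j, ∑ l, (v i l - v j l) * (x i l - x j l) ≤ 0) :
    0 ≤ ∑ i, ∫ w in {w : (Fin (m + 1) → ℝ) × ℝ | ∀ j, F (x j) (R j) w ≤ F (x i) (R i) w},
        deriv (fun s => - deriv κ s) (F (x i) (R i) w) * (-2 * ∑ l, (w.1 l - x i l) * v i l) := by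
  classical
  obtain ⟨E, hEs, hE⟩ := exists_symm_enum m
  set Φ : ℝ → ℝ := fun s => - deriv κ s with hΦdef
  have hΦ : ContDiff ℝ 1 Φ := by
    have : ContDiff ℝ 1 (deriv κ) := by
      have h := (contDiff_succ_iff_deriv (n := 1) (f := κ)).1 (by simpa [one_add_one_eq_two] using hκ)
      exact h.2.2
    exact this.neg
  have hs : HasCompactSupport Φ := hc.deriv.neg
  have hdet : ∀ i j, i ≠ j → (Mx x i j (E i j)).det ≠ 0 := by
    intro i j hij
    obtain ⟨a, b, c, _⟩ := hE i j hij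
    exact Mx_det_ne x hx i j hij (E i j) a b c
  have hdetr : ∀ i j, i ≠ j → (Mx (rx x) i j (E i j)).det ≠ 0 := by
    intro i j hij
    obtain ⟨a, b, c, _⟩ := hE i j hij
    exact Mx_det_ne (rx x) (affineIndependent_rx hx) i j hij (E i j) a b c
  -- dual vectors
  let u : Fin (m + 2) → Fin (m + 2) → Fin (m + 1) → ℝ := fun i j =>
    if i = j then 0 else ud x i j (E i j)
  have hdual : ∀ i j k, k ≠ i → ∑ l, (x i l - x k l) * u i j l = if k = j then 1 else 0 := by
    intro i j k hki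
    by_cases hij : i = j
    · subst hij
      simp only [u, if_true, Pi.zero_apply, mul_zero, Finset.sum_const_zero]
      rw [if_neg hki]
    · simp only [u, if_neg hij]
      by_cases hkj : k = j
      · subst hkj
        rw [if_pos rfl]
        exact ud_self x i k (E i k) (hdet i k hij)
      · rw [if_neg hkj]
        rcases (hE i j hij).2.2.2 k with h | h | ⟨a, h⟩
        · exact absurd h hki
        · exact absurd h hkj
        · rw [← h]
          exact ud_other x i j (E i j) (hdet i j hij) a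
  -- decomposition of the velocity
  let γ : Fin (m + 2) → Fin (m + 2) → ℝ := fun i j => ∑ l, (x i l - x j l) * v i l
  have hdec : ∀ i l, v i l = ∑ j, γ i j * u i j l := by
    intro i
    obtain ⟨j0, hj0⟩ : ∃ j0 : Fin (m + 2), i ≠ j0 := ⟨if i = 0 then 1 else 0, by
      by_cases h : i = 0
      · simp [h]
      · simp [h]⟩
    have hu : IsUnit (Mx x i j0 (E i j0)).det := isUnit_iff_ne_zero.2 (hdet i j0 hj0)
    have hk : ∀ k, k ≠ i → ∑ l, (x i l - x k l) * v i l =
        ∑ l, (x i l - x k l) * ∑ j, γ i j * u i j l := by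
      intro k hki
      have h1 : ∑ l, (x i l - x k l) * ∑ j, γ i j * u i j l =
          ∑ j, γ i j * ∑ l, (x i l - x k l) * u i j l := by
        simp_rw [Finset.mul_sum]
        rw [Finset.sum_comm]
        exact Finset.sum_congr rfl fun j _ => Finset.sum_congr rfl fun l _ => by ring
      rw [h1]
      simp_rw [hdual i _ k hki]
      simp [γ]
    have hM : (Mx x i j0 (E i j0)).mulVec (v i) =
        (Mx x i j0 (E i j0)).mulVec (fun l => ∑ j, γ i j * u i j l) := by
      funext a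
      induction a using Fin.cases with
      | zero =>
        rw [Mx_mulVec_zero, Mx_mulVec_zero]
        exact hk j0 hj0.symm
      | succ a =>
        rw [Mx_mulVec_succ, Mx_mulVec_succ]
        exact hk _ ((hE i j0 hj0).2.1 a)
    have h3 := congrArg (Mx x i j0 (E i j0))⁻¹.mulVec hM
    rw [Matrix.mulVec_mulVec, Matrix.mulVec_mulVec, Matrix.nonsing_inv_mul _ hu,
      Matrix.one_mulVec, Matrix.one_mulVec] at h3
    intro l
    exact congrFun h3 l
  -- the cell integrals
  let T : Fin (m + 2) → Fin (m + 2) → ℝ := fun i j =>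
    ∫ w in {w : (Fin (m + 1) → ℝ) × ℝ | ∀ j, F (x j) (R j) w ≤ F (x i) (R i) w},
        deriv Φ (F (x i) (R i) w) * (-2 * ∑ l, (w.1 l - x i l) * u i j l)
  have hneg : ∀ i j, i ≠ j → ∀ l, ud x i j (E i j) l = - ud (rx x) i j (E i j) l := by
    intro i j hij l
    have hMn : Mx (rx x) i j (E i j) = - Mx x i j (E i j) := by
      ext a b
      induction a using Fin.cases with
      | zero => simp [Mx, rx]; ring
      | succ a => simp [Mx, rx]; ring
    have hinv : (Mx (rx x) i j (E i j))⁻¹ = - (Mx x i j (E i j))⁻¹ := by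
      have hu : IsUnit (Mx x i j (E i j)).det := isUnit_iff_ne_zero.2 (hdet i j hij)
      rw [hMn]
      refine Matrix.inv_eq_right_inv ?_
      rw [neg_mul_neg, Matrix.mul_nonsing_inv _ hu]
    unfold ud
    rw [hinv, Matrix.neg_mulVec, Pi.neg_apply, neg_neg]
  have hTW : ∀ i j, i ≠ j → T i j = - Wx Φ x R i j (E i j) := by
    intro i j hij
    simp only [T, u, if_neg hij]
    rw [cell_eqx x R i j (E i j) (hE i j hij).2.2.2]
    have h1 := Pool.Agent.Helper31.KP.cell_wall Φ hΦ hs (Mx (rx x) i j (E i j)) (hdetr i j hij)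
      (hv (rx x) (rR x R) i j (E i j)) (x i) (R i)
    unfold Wx
    rw [← h1, ← integral_neg]
    refine integral_congr_ae (Filter.Eventually.of_forall fun w => ?_)
    simp only [hneg i j hij]
    have h2 : ∑ l, (w.1 l - x i l) * - ud (rx x) i j (E i j) l =
        - ∑ l, (w.1 l - x i l) * ud (rx x) i j (E i j) l := by
      rw [← Finset.sum_neg_distrib]
      exact Finset.sum_congr rfl fun l _ => by ring
    rw [h2]
    unfold ud
    ring
  have hT0 : ∀ i, T i i = 0 := by
    intro i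
    simp [T, u]
  have hTs : ∀ i j, T i j = T j i := by
    intro i j
    by_cases hij : i = j
    · rw [hij]
    · rw [hTW i j hij, hTW j i (Ne.symm hij), hEs j i,
        Wx_swap Φ x R i j (E i j) (hdetr i j hij)]
  have hTn : ∀ i j, T i j ≤ 0 := by
    intro i j
    by_cases hij : i = j
    · subst hij
      rw [hT0 i]
    · rw [hTW i j hij]
      exact neg_nonpos.2 (Wx_nonneg κ hκ hc h0 hm x R i j (E i j) (hdetr i j hij))
  have hsum : ∀ i, ∫ w in {w : (Fin (m + 1) → ℝ) × ℝ | ∀ j, F (x j) (R j) w ≤ F (x i) (R i) w},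
        deriv Φ (F (x i) (R i) w) * (-2 * ∑ l, (w.1 l - x i l) * v i l) =
      ∑ j, γ i j * T i j := by
    intro i
    have h1 : ∀ w : (Fin (m + 1) → ℝ) × ℝ,
        deriv Φ (F (x i) (R i) w) * (-2 * ∑ l, (w.1 l - x i l) * v i l) =
        ∑ j, γ i j * (deriv Φ (F (x i) (R i) w) * (-2 * ∑ l, (w.1 l - x i l) * u i j l)) := by
      intro w
      have h2 : ∑ l, (w.1 l - x i l) * v i l =
          ∑ j, γ i j * ∑ l, (w.1 l - x i l) * u i j l := by
        simp_rw [hdec i, Finset.mul_sum]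
        rw [Finset.sum_comm]
        exact Finset.sum_congr rfl fun j _ => Finset.sum_congr rfl fun l _ => by ring
      rw [h2, Finset.mul_sum, Finset.mul_sum]
      exact Finset.sum_congr rfl fun j _ => by ring
    simp_rw [h1]
    rw [integral_finsetSum]
    · refine Finset.sum_congr rfl fun j _ => ?_
      rw [integral_const_mul]
    · intro j _
      exact ((integrable_term Φ hΦ hs (x i) (R i) (u i j)).integrableOn).const_mul _
  simp_rw [hsum]
  have hfin : ∑ i, ∑ j, γ i j * T i j = (1 / 2) * ∑ i, ∑ j, (γ i j + γ j i) * T i j := by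
    have h1 : ∑ i, ∑ j, γ j i * T i j = ∑ i, ∑ j, γ i j * T i j := by
      rw [Finset.sum_comm]
      exact Finset.sum_congr rfl fun j _ => Finset.sum_congr rfl fun i _ => by rw [hTs i j]
    simp_rw [add_mul, Finset.sum_add_distrib]
    rw [h1]; ring
  rw [hfin]
  refine mul_nonneg (by norm_num) ?_
  refine Finset.sum_nonneg fun i _ => Finset.sum_nonneg fun j _ => ?_
  refine mul_nonneg_of_nonpos_of_nonpos ?_ (hTn i j)
  have : γ i j + γ j i = ∑ l, (v i l - v j l) * (x i l - x j l) := by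
    simp only [γ]
    rw [← Finset.sum_add_distrib]
    exact Finset.sum_congr rfl fun l _ => by ring
  rw [this]
  exact hvv i j


end Pool.Agent.Helper15.KPI
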