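import Pool.Agent.Helper15.KP.Defs

set_option autoImplicit false

open MeasureTheory Set

noncomputable section

namespace Pool.Agent.Helper15.KPI

open Pool.Agent.Helper15.KP

/-- The maximum of finitely many real numbers. -/
def mx {n : ℕ} (g : Fin (n + 1) → ℝ) : ℝ := Finset.univ.sup' Finset.univ_nonempty g

/-- Integral over `ℝ^m × ℝ` of `Φ` of the maximum of the power functions. -/
def J {m n : ℕ} (Φ : ℝ → ℝ) (R : Fin (n + 1) → ℝ) (x : Fin (n + 1) → Fin m → ℝ) : ℝ :=
  ∫ w : (Fin m → ℝ) × ℝ, Φ (mx fun k => F (x k) (R k) w)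

end Pool.Agent.Helper15.KPI
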