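import Pool.Agent.Helper15.KPI.Defs
import Pool.Agent.Helper45.KP.Deriv

/-!
# Differentiating the integral of a function of the maximum of the power functions
-/

set_option autoImplicit false

open MeasureTheory Set Filter Topology
open Pool.Agent.Helper15.KP Pool.Agent.Helper45.KP

noncomputable section

namespace Pool.Agent.Helper15.KPI

theorem le_mx {n : ℕ} (g : Fin (n + 1) → ℝ) (i : Fin (n + 1)) : g i ≤ mx g :=
  Finset.le_sup' g (Finset.mem_univ i)

theorem exists_mx {n : ℕ} (g : Fin (n + 1) → ℝ) : ∃ i, mx g = g i := by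
  obtain ⟨i, -, hi⟩ := Finset.exists_mem_eq_sup' (Finset.univ_nonempty (α := Fin (n + 1))) g
  exact ⟨i, hi⟩

theorem mx_eq {n : ℕ} {g : Fin (n + 1) → ℝ} {i : Fin (n + 1)} (h : ∀ j, g j ≤ g i) : mx g = g i := by
  refine le_antisymm ?_ (le_mx g i)
  obtain ⟨j, hj⟩ := exists_mx g
  rw [hj]
  exact h j

theorem abs_mx_sub_le {n : ℕ} {g h : Fin (n + 1) → ℝ} {ε : ℝ} (hgh : ∀ i, |g i - h i| ≤ ε) :
    |mx g - mx h| ≤ ε := by
  rw [abs_sub_le_iff]
  constructor
  · obtain ⟨i, hi⟩ := exists_mx g
    have h1 := le_mx h i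
    have h2 := (abs_sub_le_iff.1 (hgh i)).1
    linarith
  · obtain ⟨i, hi⟩ := exists_mx h
    have h1 := le_mx g i
    have h2 := (abs_sub_le_iff.1 (hgh i)).2
    linarith

theorem continuous_mx {n : ℕ} {X : Type*} [TopologicalSpace X] {g : X → Fin (n + 1) → ℝ}
    (hg : ∀ i, Continuous fun x => g x i) : Continuous fun x => mx (g x) :=
  Continuous.finset_sup'_apply _ fun i _ => hg i

theorem measurableSet_cellx {m n : ℕ} (x : Fin (n + 1) → Fin m → ℝ) (R : Fin (n + 1) → ℝ)
    (i : Fin (n + 1)) : MeasurableSet {w : (Fin m → ℝ) × ℝ | ∀ j, F (x j) (R j) w ≤ F (x i) (R i) w} := by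
  have h : {w : (Fin m → ℝ) × ℝ | ∀ j, F (x j) (R j) w ≤ F (x i) (R i) w} =
      ⋂ j, {w | F (x j) (R j) w ≤ F (x i) (R i) w} := by
    ext w
    simp
  rw [h]
  exact (isClosed_iInter fun j => isClosed_le (continuous_F _ _) (continuous_F _ _)).measurableSet

theorem hasDerivAt_J {m n : ℕ} (Φ : ℝ → ℝ) (hΦ : ContDiff ℝ 1 Φ) (hs : HasCompactSupport Φ)
    (R : Fin (n + 1) → ℝ) (x : ℝ → Fin (n + 1) → Fin m → ℝ) (v : Fin (n + 1) → Fin m → ℝ)
    (t0 : ℝ) (hx : ∀ k l, ContDiffAt ℝ 1 (fun t => x t k l) t0)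
    (hv : ∀ k l, HasDerivAt (fun t => x t k l) (v k l) t0)
    (hne : ∀ i j, i ≠ j → x t0 i ≠ x t0 j) :
    HasDerivAt (fun t => J Φ R (x t))
      (∑ i, ∫ w in {w : (Fin m → ℝ) × ℝ | ∀ j, F (x t0 j) (R j) w ≤ F (x t0 i) (R i) w},
        deriv Φ (F (x t0 i) (R i) w) * (-2 * ∑ l, (w.1 l - x t0 i l) * v i l)) t0 := by
  classical
  -- the Lipschitz constant and the support of `Φ`
  obtain ⟨KΦ, hKΦ⟩ := hΦ.lipschitzWith_of_hasCompactSupport hs one_ne_zero
  obtain ⟨B, hB⟩ : ∃ B : ℝ, ∀ s, B < s → Φ s = 0 := by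
    obtain ⟨B, hB⟩ := hs.isCompact.bddAbove
    refine ⟨B, fun s hs' => ?_⟩
    by_contra hne
    exact absurd (hB (subset_tsupport Φ hne)) (not_le.2 hs')
  have hB' : ∀ s, B < s → deriv Φ s = 0 := by
    intro s hs'
    have h1 : Φ =ᶠ[𝓝 s] fun _ => 0 := by
      filter_upwards [lt_mem_nhds hs'] with u hu using hB u hu
    rw [h1.deriv_eq, deriv_const]
  -- a neighbourhood of `t0`
  choose Kx hKx using fun k l => (hx k l).exists_lipschitzOnWith
  choose sx hsx hLip using hKx
  set K : ℝ := ∑ k, ∑ l, (Kx k l : ℝ) with hK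
  have hK0 : 0 ≤ K := Finset.sum_nonneg fun _ _ => Finset.sum_nonneg fun _ _ => NNReal.coe_nonneg _
  have hKle : ∀ k l, (Kx k l : ℝ) ≤ K := by
    intro k l
    refine (Finset.single_le_sum (f := fun l => (Kx k l : ℝ)) (fun _ _ => NNReal.coe_nonneg _)
      (Finset.mem_univ l)).trans ?_
    exact Finset.single_le_sum (f := fun k => ∑ l, (Kx k l : ℝ))
      (fun _ _ => Finset.sum_nonneg fun _ _ => NNReal.coe_nonneg _) (Finset.mem_univ k)
  set C : ℝ := ∑ k, ∑ l, (|x t0 k l| + 1) with hC
  have hCle : ∀ k l, |x t0 k l| + 1 ≤ C := by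
    intro k l
    refine (Finset.single_le_sum (f := fun l => |x t0 k l| + 1) (fun _ _ => by positivity)
      (Finset.mem_univ l)).trans ?_
    exact Finset.single_le_sum (f := fun k => ∑ l, (|x t0 k l| + 1))
      (fun _ _ => Finset.sum_nonneg fun _ _ => by positivity) (Finset.mem_univ k)
  have hC0 : 0 ≤ C := Finset.sum_nonneg fun _ _ => Finset.sum_nonneg fun _ _ => by positivity
  set D : ℝ := ∑ k, |R k| with hD
  have hDle : ∀ k, R k ≤ D := fun k => (le_abs_self _).trans
    (Finset.single_le_sum (f := fun k => |R k|) (fun _ _ => abs_nonneg _) (Finset.mem_univ k))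
  have hcont : ∀ k l, ContinuousAt (fun t => x t k l) t0 := fun k l => (hv k l).continuousAt
  have hnb : {t : ℝ | (∀ k l, t ∈ sx k l) ∧ ∀ k l, |x t k l| ≤ C} ∈ 𝓝 t0 := by
    have h1 : ∀ᶠ t in 𝓝 t0, ∀ k l, t ∈ sx k l := by
      rw [eventually_all]
      intro k
      rw [eventually_all]
      intro l
      exact hsx k l
    have h2 : ∀ᶠ t in 𝓝 t0, ∀ k l, |x t k l| ≤ C := by
      rw [eventually_all]
      intro k
      rw [eventually_all]
      intro l
      have h3 : ContinuousAt (fun t => |x t k l|) t0 := (hcont k l).abs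
      have h4 : |x t0 k l| < C := by linarith [hCle k l]
      filter_upwards [h3.eventually_lt continuousAt_const h4] with t ht using ht.le
    filter_upwards [h1, h2] with t ht1 ht2 using ⟨ht1, ht2⟩
  set s : Set ℝ := {t : ℝ | (∀ k l, t ∈ sx k l) ∧ ∀ k l, |x t k l| ≤ C} with hsdef
  have ht0s : t0 ∈ s := mem_of_mem_nhds hnb
  set ρ : ℝ := C + Real.sqrt (B + D) with hρ
  have hρ0 : 0 ≤ ρ := add_nonneg hC0 (Real.sqrt_nonneg _)
  -- outside the ball everything vanishes
  have hout : ∀ t ∈ s, ∀ w : (Fin m → ℝ) × ℝ, ρ < ‖w‖ → ∀ k, B < F (x t k) (R k) w := by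
    intro t ht w hw k
    by_contra hcon
    rw [not_lt] at hcon
    exact absurd (norm_le_of_F_le (ht.2 k) hC0 (hDle k) hcon) (not_le.2 hw)
  set bd : ℝ := KΦ * (m * (K * (2 * ρ + 2 * C))) with hbd
  have hbd0 : 0 ≤ bd := by positivity
  -- the derivative
  set f' : Fin (n + 1) → (Fin m → ℝ) × ℝ → ℝ := fun i w =>
    deriv Φ (F (x t0 i) (R i) w) * (-2 * ∑ l, (w.1 l - x t0 i l) * v i l) with hf'
  have hf'c : ∀ i, Continuous (f' i) := by
    intro i
    have h1 : Continuous (deriv Φ) := hΦ.continuous_deriv le_rfl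
    have h2 := h1.comp (continuous_F (x t0 i) (R i))
    refine h2.mul ?_
    fun_prop
  have hf's : ∀ i, HasCompactSupport (f' i) := by
    intro i
    refine HasCompactSupport.intro (isCompact_closedBall (0 : (Fin m → ℝ) × ℝ) ρ) ?_
    intro w hw
    rw [mem_closedBall_zero_iff, not_le] at hw
    rw [hf']
    simp only
    rw [hB' _ (hout t0 ht0s w hw i), zero_mul]
  have hf'i : ∀ i, Integrable (f' i) := fun i => (hf'c i).integrable_of_hasCompactSupport (hf's i)
  set cell : Fin (n + 1) → Set ((Fin m → ℝ) × ℝ) := fun i =>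
    {w | ∀ j, F (x t0 j) (R j) w ≤ F (x t0 i) (R i) w} with hcell
  have hmeas : ∀ i, MeasurableSet (cell i) := fun i => measurableSet_cellx (x t0) R i
  have key := hasDerivAt_integral_of_dominated_loc_of_lip (μ := (volume : Measure ((Fin m → ℝ) × ℝ)))
    (F := fun t w => Φ (mx fun k => F (x t k) (R k) w)) (F' := fun w => ∑ i, (cell i).indicator (f' i) w)
    (x₀ := t0) (s := s) (bound := (Metric.closedBall (0 : (Fin m → ℝ) × ℝ) ρ).indicator fun _ => bd)
    hnb ?_ ?_ ?_ ?_ ?_ ?_
  · have h1 := key.2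
    rw [integral_finsetSum _ fun i _ => (hf'i i).indicator (hmeas i)] at h1
    simp_rw [integral_indicator (hmeas _)] at h1
    exact h1
  · -- measurability
    refine Eventually.of_forall fun t => ?_
    exact (hΦ.continuous.comp (continuous_mx fun k => continuous_F _ _)).aestronglyMeasurable
  · -- integrability
    refine (hΦ.continuous.comp
      (continuous_mx fun k => continuous_F _ _)).integrable_of_hasCompactSupport ?_
    refine HasCompactSupport.intro (isCompact_closedBall (0 : (Fin m → ℝ) × ℝ) ρ) ?_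
    intro w hw
    rw [mem_closedBall_zero_iff, not_le] at hw
    obtain ⟨i, hi⟩ := exists_mx fun k => F (x t0 k) (R k) w
    have h1 := hout t0 ht0s w hw i
    rw [← hi] at h1
    exact hB _ h1
  · exact (integrable_finsetSum _ fun i _ => (hf'i i).indicator (hmeas i)).aestronglyMeasurable
  · -- Lipschitz
    refine Eventually.of_forall fun w => ?_
    by_cases hw : ‖w‖ ≤ ρ
    · rw [Set.indicator_of_mem (mem_closedBall_zero_iff.2 hw)]
      refine LipschitzOnWith.of_dist_le_mul fun t ht t' ht' => ?_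
      rw [Real.dist_eq, Real.coe_nnabs, abs_of_nonneg hbd0]
      have h1 : |(mx fun k => F (x t k) (R k) w) - mx fun k => F (x t' k) (R k) w| ≤
          m * (K * (2 * ρ + 2 * C)) * dist t t' := by
        refine abs_mx_sub_le fun k => ?_
        have h2 : F (x t k) (R k) w - F (x t' k) (R k) w =
            ∑ l, (x t' k l - x t k l) * (2 * w.1 l - x t k l - x t' k l) := by
          unfold F
          rw [show (∑ l, (w.1 l - x t k l) ^ 2 + w.2 ^ 2 - R k) -
            (∑ l, (w.1 l - x t' k l) ^ 2 + w.2 ^ 2 - R k) =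
            ∑ l, (w.1 l - x t k l) ^ 2 - ∑ l, (w.1 l - x t' k l) ^ 2 by ring,
            ← Finset.sum_sub_distrib]
          refine Finset.sum_congr rfl fun l _ => ?_
          ring
        rw [h2]
        refine (Finset.abs_sum_le_sum_abs _ _).trans ?_
        have h3 : ∀ l, |(x t' k l - x t k l) * (2 * w.1 l - x t k l - x t' k l)| ≤
            K * dist t t' * (2 * ρ + 2 * C) := by
          intro l
          rw [abs_mul]
          have h4 : |x t' k l - x t k l| ≤ K * dist t t' := by
            have h5 := (hLip k l).dist_le_mul t' (ht'.1 k l) t (ht.1 k l)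
            rw [Real.dist_eq, dist_comm] at h5
            exact h5.trans (mul_le_mul_of_nonneg_right (hKle k l) dist_nonneg)
          have h6 : |2 * w.1 l - x t k l - x t' k l| ≤ 2 * ρ + 2 * C := by
            have h7 : |w.1 l| ≤ ρ := by
              have := (norm_le_pi_norm w.1 l).trans ((norm_fst_le w).trans hw)
              rwa [Real.norm_eq_abs] at this
            have h8 := ht.2 k l
            have h9 := ht'.2 k l
            rw [abs_le] at h7 h8 h9 ⊢
            constructor <;> linarith [h7.1, h7.2, h8.1, h8.2, h9.1, h9.2]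
          exact mul_le_mul h4 h6 (abs_nonneg _) (by positivity)
        refine (Finset.sum_le_sum fun l _ => h3 l).trans ?_
        rw [Finset.sum_const, Finset.card_univ, Fintype.card_fin, nsmul_eq_mul]
        apply le_of_eq
        ring
      have h2 := hKΦ.dist_le_mul (mx fun k => F (x t k) (R k) w) (mx fun k => F (x t' k) (R k) w)
      rw [Real.dist_eq, Real.dist_eq] at h2
      refine h2.trans ?_
      rw [hbd, mul_assoc]
      exact mul_le_mul_of_nonneg_left h1 (NNReal.coe_nonneg _)
    · rw [not_le] at hw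
      have hz : ∀ t ∈ s, Φ (mx fun k => F (x t k) (R k) w) = 0 := by
        intro t ht
        apply hB
        obtain ⟨i, hi⟩ := exists_mx fun k => F (x t k) (R k) w
        rw [hi]
        exact hout t ht w hw i
      refine LipschitzOnWith.of_dist_le_mul fun t ht t' ht' => ?_
      rw [hz t ht, hz t' ht', dist_self]
      positivity
  · -- the bound is integrable
    rw [integrable_indicator_iff Metric.isClosed_closedBall.measurableSet]
    exact integrableOn_const (isCompact_closedBall _ _).measure_lt_top.ne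
  · -- almost everywhere differentiability
    filter_upwards [ae_F_ne (x t0) R hne] with w hw
    obtain ⟨i, hi⟩ := exists_mx fun k => F (x t0 k) (R k) w
    have hlt : ∀ j, j ≠ i → F (x t0 j) (R j) w < F (x t0 i) (R i) w := by
      intro j hj
      refine lt_of_le_of_ne ?_ (hw j i hj)
      rw [← hi]
      exact le_mx (fun k => F (x t0 k) (R k) w) j
    have hsum : ∑ j, (cell j).indicator (f' j) w = f' i w := by
      rw [Finset.sum_eq_single i]
      · apply Set.indicator_of_mem
        intro j
        rcases eq_or_ne j i with h | h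
        · rw [h]
        · exact (hlt j h).le
      · intro j _ hj
        apply Set.indicator_of_notMem
        intro hmem
        exact absurd (hmem i) (not_le.2 (hlt j hj))
      · intro h
        exact absurd (Finset.mem_univ i) h
    rw [hsum]
    have hev : (fun t => Φ (mx fun k => F (x t k) (R k) w)) =ᶠ[𝓝 t0]
        fun t => Φ (F (x t i) (R i) w) := by
      have h1 : ∀ᶠ t in 𝓝 t0, ∀ j, j ≠ i → F (x t j) (R j) w < F (x t i) (R i) w := by
        rw [eventually_all]
        intro j
        by_cases hj : j = i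
        · exact Eventually.of_forall fun t h => absurd hj h
        · have h2 := (hasDerivAt_F (R i) (fun t => x t i) (v i) t0 (hv i) w).continuousAt
          have h3 := (hasDerivAt_F (R j) (fun t => x t j) (v j) t0 (hv j) w).continuousAt
          filter_upwards [h3.eventually_lt h2 (hlt j hj)] with t ht _ using ht
      filter_upwards [h1] with t ht
      congr 1
      refine mx_eq (i := i) fun j => ?_
      rcases eq_or_ne j i with h | h
      · rw [h]
      · exact (ht j h).le
    refine HasDerivAt.congr_of_eventuallyEq ?_ hev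
    have h1 := hasDerivAt_F (R i) (fun t => x t i) (v i) t0 (hv i) w
    have h2 : HasDerivAt Φ (deriv Φ (F (x t0 i) (R i) w)) (F (x t0 i) (R i) w) :=
      ((hΦ.differentiable one_ne_zero) _).hasDerivAt
    exact h2.comp t0 h1

end Pool.Agent.Helper15.KPI
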