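import Pool.Agent.Helper15.KPI.Deriv
import Pool.Agent.Helper11.KP.Flat

set_option autoImplicit false

open MeasureTheory Set

noncomputable section

namespace Pool.Agent.Helper15.KPI

open Pool.Agent.Helper15.KP Pool.Agent.Helper11.KP

theorem mx_add {n : ℕ} (g : Fin (n + 1) → ℝ) (c : ℝ) : mx (fun k => g k + c) = mx g + c := by
  apply le_antisymm
  · obtain ⟨k, hk⟩ := exists_mx (fun k => g k + c)
    rw [hk]
    linarith [le_mx g k]
  · obtain ⟨k, hk⟩ := exists_mx g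
    rw [hk]
    exact le_mx (fun k => g k + c) k

theorem prp_mx {d n : ℕ} (R : Fin (n + 1) → ℝ) (p : Fin (n + 1) → Fin d → ℝ) :
    Prp (fun z : Fin d → ℝ => mx fun k => sq z (p k) - R k) := by
  refine ⟨?_, ?_, ?_⟩
  · refine continuous_mx fun i => ?_
    unfold Helper15.KP.sq
    fun_prop
  · intro r
    refine ⟨Metric.closedBall (p 0) (Real.sqrt (r + R 0)), isCompact_closedBall _ _, ?_⟩
    intro z hz
    have hk2 : sq z (p 0) ≤ r + R 0 := by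
      have := le_mx (fun k => sq z (p k) - R k) 0
      linarith
    rw [Metric.mem_closedBall, dist_pi_le_iff (Real.sqrt_nonneg _)]
    intro l
    rw [Real.dist_eq]
    refine Real.abs_le_sqrt (le_trans ?_ hk2)
    unfold Helper15.KP.sq
    exact Finset.single_le_sum (f := fun l => (z l - p 0 l) ^ 2) (fun l _ => sq_nonneg _)
      (Finset.mem_univ l)
  · refine ⟨- R 0, fun z => ?_⟩
    have := le_mx (fun k => sq z (p k) - R k) 0
    have h0 : 0 ≤ sq z (p 0) := Finset.sum_nonneg fun l _ => sq_nonneg _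
    linarith

theorem J_flat_of (κ : ℝ → ℝ) (hκ : ContDiff ℝ 2 κ) (hc : HasCompactSupport κ)
    (hrad : ∀ G : ℝ → ℝ, Continuous G → HasCompactSupport G → ∀ a : ℝ,
      ∫ p : ℝ × ℝ, G (a + p.1 ^ 2 + p.2 ^ 2) = Real.pi * ∫ u in Ioi a, G u)
    {d n : ℕ} (R : Fin (n + 1) → ℝ) (p : Fin (n + 1) → Fin d → ℝ) :
    J (fun s => - deriv κ s) R
      (fun k => (Fin.cons 0 (Fin.cons 0 (Fin.cons 0 (p k))) : Fin (d + 3) → ℝ)) =
    Real.pi ^ 2 * ∫ z : Fin d → ℝ, ∫ u in Ioi (mx fun k => sq z (p k) - R k), κ u := by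
  set M : (Fin d → ℝ) → ℝ := fun z => mx fun k => sq z (p k) - R k with hM
  have hP : Prp M := prp_mx R p
  have hd : Continuous (fun s => - deriv κ s) := (hκ.continuous_deriv (by norm_num)).neg
  have hds : HasCompactSupport (fun s => - deriv κ s) := hc.deriv.neg
  have hFmx : ∀ w : (Fin (d + 3) → ℝ) × ℝ,
      (mx fun k => F (Fin.cons 0 (Fin.cons 0 (Fin.cons 0 (p k)))) (R k) w) =
        (M (e2 d (e1 (d + 2) w).1).1 + (e2 d (e1 (d + 2) w).1).2.1 ^ 2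
          + (e2 d (e1 (d + 2) w).1).2.2 ^ 2) + (e1 (d + 2) w).2.1 ^ 2
          + (e1 (d + 2) w).2.2 ^ 2 := by
    rintro ⟨w, y⟩
    have hrw : ∀ k, F (Fin.cons 0 (Fin.cons 0 (Fin.cons 0 (p k)))) (R k) (w, y) =
        (sq (fun l => w l.succ.succ.succ) (p k) - R k) +
          (w 0 ^ 2 + w 1 ^ 2 + w 2 ^ 2 + y ^ 2) := by
      intro k
      simp only [F, Helper15.KP.sq, Fin.sum_univ_succ, Fin.cons_zero, Fin.cons_succ, sub_zero]
      have h1 : (Fin.succ 0 : Fin (d + 3)) = 1 := rfl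
      have h2 : (Fin.succ (Fin.succ 0) : Fin (d + 3)) = 2 := rfl
      rw [h1, h2]
      ring
    simp only [hrw]
    rw [mx_add]
    have e1a : (e1 (d + 2) (w, y)).1 = fun l => w l.succ := rfl
    have e1b : (e1 (d + 2) (w, y)).2 = (w 0, y) := rfl
    have e2a : (e2 d (fun l => w l.succ)).1 = fun l => w l.succ.succ.succ := rfl
    have e2b : (e2 d (fun l => w l.succ)).2 = (w 1, w 2) := rfl
    rw [e1a, e1b, e2a, e2b]
    simp only [hM]
    ring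
  have hI : J (fun s => - deriv κ s) R
      (fun k => (Fin.cons 0 (Fin.cons 0 (Fin.cons 0 (p k))) : Fin (d + 3) → ℝ)) =
      ∫ w : (Fin (d + 3) → ℝ) × ℝ, - deriv κ
        ((M (e2 d (e1 (d + 2) w).1).1 + (e2 d (e1 (d + 2) w).1).2.1 ^ 2
          + (e2 d (e1 (d + 2) w).1).2.2 ^ 2) + (e1 (d + 2) w).2.1 ^ 2
          + (e1 (d + 2) w).2.2 ^ 2) := by
    unfold J
    exact integral_congr_ae (Filter.Eventually.of_forall fun w => by
      simp only [hFmx w])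
  rw [hI]
  calc ∫ w : (Fin (d + 3) → ℝ) × ℝ, - deriv κ
        ((M (e2 d (e1 (d + 2) w).1).1 + (e2 d (e1 (d + 2) w).1).2.1 ^ 2
          + (e2 d (e1 (d + 2) w).1).2.2 ^ 2) + (e1 (d + 2) w).2.1 ^ 2
          + (e1 (d + 2) w).2.2 ^ 2)
      = ∫ q : (Fin (d + 2) → ℝ) × (ℝ × ℝ), - deriv κ
        ((M (e2 d q.1).1 + (e2 d q.1).2.1 ^ 2 + (e2 d q.1).2.2 ^ 2) + q.2.1 ^ 2 + q.2.2 ^ 2) :=
        (mp_e1 (d + 2)).integral_comp' (fun q : (Fin (d + 2) → ℝ) × (ℝ × ℝ) => - deriv κ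
        ((M (e2 d q.1).1 + (e2 d q.1).2.1 ^ 2 + (e2 d q.1).2.2 ^ 2) + q.2.1 ^ 2 + q.2.2 ^ 2))
    _ = ∫ q : ((Fin d → ℝ) × (ℝ × ℝ)) × (ℝ × ℝ), - deriv κ
        ((M q.1.1 + q.1.2.1 ^ 2 + q.1.2.2 ^ 2) + q.2.1 ^ 2 + q.2.2 ^ 2) := by
        have hmp : MeasurePreserving ((e2 d).prodCongr (MeasurableEquiv.refl (ℝ × ℝ))) :=
          (mp_e2 d).prod (MeasurePreserving.id volume)
        exact hmp.integral_comp' (fun q : ((Fin d → ℝ) × (ℝ × ℝ)) × (ℝ × ℝ) => - deriv κ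
          ((M q.1.1 + q.1.2.1 ^ 2 + q.1.2.2 ^ 2) + q.2.1 ^ 2 + q.2.2 ^ 2))
    _ = Real.pi * ∫ x : (Fin d → ℝ) × (ℝ × ℝ), ∫ u in Ioi (M x.1 + x.2.1 ^ 2 + x.2.2 ^ 2),
          - deriv κ u :=
        peel hP.extend _ hd hds (hrad _ hd hds)
    _ = Real.pi * ∫ x : (Fin d → ℝ) × (ℝ × ℝ), κ (M x.1 + x.2.1 ^ 2 + x.2.2 ^ 2) := by
        congr 1
        refine integral_congr_ae (Filter.Eventually.of_forall fun x => ?_)
        simp only
        rw [integral_neg, hc.integral_Ioi_deriv_eq (hκ.of_le (by norm_num)), neg_neg]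
    _ = Real.pi * (Real.pi * ∫ z : Fin d → ℝ, ∫ u in Ioi (M z), κ u) := by
        rw [peel hP κ hκ.continuous hc (hrad κ hκ.continuous hc)]
    _ = Real.pi ^ 2 * ∫ z : Fin d → ℝ, ∫ u in Ioi (M z), κ u := by ring

end Pool.Agent.Helper15.KPI
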