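import Pool.Agent.Helper15.KPI.Path
import Pool.Agent.Helper15.KPI.Flat
import Pool.Agent.Helper15.KPI.VolLe
import Pool.Agent.Helper15.KP.Final

set_option autoImplicit false

open MeasureTheory Set

noncomputable section

namespace Pool.Agent.Helper15.KPI

open Pool.Agent.Helper15.KP

theorem sq_cons {d : ℕ} {p q : Fin (d + 4) → EuclideanSpace ℝ (Fin d)}
    (h : ∀ i j, dist (q i) (q j) ≤ dist (p i) (p j)) (i j : Fin (d + 4)) :
    Pool.Agent.Helper15.KP.sq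
      (Fin.cons 0 (Fin.cons 0 (Fin.cons 0 (q i).ofLp)) : Fin (d + 3) → ℝ)
      (Fin.cons 0 (Fin.cons 0 (Fin.cons 0 (q j).ofLp)) : Fin (d + 3) → ℝ) ≤
    Pool.Agent.Helper15.KP.sq
      (Fin.cons 0 (Fin.cons 0 (Fin.cons 0 (p i).ofLp)) : Fin (d + 3) → ℝ)
      (Fin.cons 0 (Fin.cons 0 (Fin.cons 0 (p j).ofLp)) : Fin (d + 3) → ℝ) := by
  have hij := h i j
  rw [EuclideanSpace.dist_eq, EuclideanSpace.dist_eq] at hij
  have h2 := Real.sqrt_le_sqrt_iff (by positivity) |>.1 hij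
  simp only [Pool.Agent.Helper15.KP.sq, Fin.sum_univ_succ, Fin.cons_zero, Fin.cons_succ]
  simpa [Real.dist_eq, sq_abs] using h2

/-- The Kneser-Poulsen inequality for unions of `d + 4` balls. -/
theorem kpU (d : ℕ) (hd : 1 ≤ d) (p q : Fin (d + 4) → EuclideanSpace ℝ (Fin d))
    (r : Fin (d + 4) → ℝ) (hr : ∀ i, 0 < r i) (h : ∀ i j, dist (q i) (q j) ≤ dist (p i) (p j)) :
    volume (⋃ i, Metric.closedBall (q i) (r i)) ≤
      volume (⋃ i, Metric.closedBall (p i) (r i)) := by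
  refine Pool.Agent.Helper48.KP.vol_le p q r hr ?_
  intro κ hκ hc h0
  have key := I_anti κ hκ hc h0 (m := d + 2) (by omega) (fun k => r k ^ 2)
    (fun k => (Fin.cons 0 (Fin.cons 0 (Fin.cons 0 (p k).ofLp)) : Fin (d + 3) → ℝ))
    (fun k => (Fin.cons 0 (Fin.cons 0 (Fin.cons 0 (q k).ofLp)) : Fin (d + 3) → ℝ)) (sq_cons h)
  rw [Pool.Agent.Helper11.KP.I_flat_of κ hκ hc Pool.Agent.Helper70.KP1.radial2,
    Pool.Agent.Helper11.KP.I_flat_of κ hκ hc Pool.Agent.Helper70.KP1.radial2] at key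
  exact le_of_mul_le_mul_left key (by positivity)

/-- The Kneser-Poulsen inequality for intersections of `d + 4` balls. -/
theorem kpI (d : ℕ) (hd : 1 ≤ d) (p q : Fin (d + 4) → EuclideanSpace ℝ (Fin d))
    (r : Fin (d + 4) → ℝ) (hr : ∀ i, 0 < r i) (h : ∀ i j, dist (q i) (q j) ≤ dist (p i) (p j)) :
    volume (⋂ i, Metric.closedBall (p i) (r i)) ≤
      volume (⋂ i, Metric.closedBall (q i) (r i)) := by
  refine vol_lex q p r hr ?_
  intro κ hκ hc h0
  have key := J_mono κ hκ hc h0 (m := d + 2) (by omega) (fun k => r k ^ 2)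
    (fun k => (Fin.cons 0 (Fin.cons 0 (Fin.cons 0 (p k).ofLp)) : Fin (d + 3) → ℝ))
    (fun k => (Fin.cons 0 (Fin.cons 0 (Fin.cons 0 (q k).ofLp)) : Fin (d + 3) → ℝ)) (sq_cons h)
  rw [J_flat_of κ hκ hc Pool.Agent.Helper70.KP1.radial2,
    J_flat_of κ hκ hc Pool.Agent.Helper70.KP1.radial2] at key
  exact le_of_mul_le_mul_left key (by positivity)

end Pool.Agent.Helper15.KPI
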