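import Pool.Agent.Helper15.KPI.Final

set_option autoImplicit false

open MeasureTheory Set

noncomputable section

namespace Pool.Agent.Helper15.KPI

/-- A map of `Fin (d + 4)` onto `Fin (n + 1)` for `n + 1 ≤ d + 4`. -/
def fold (d n : ℕ) (i : Fin (d + 4)) : Fin (n + 1) := ⟨min i.val n, by omega⟩

theorem fold_surjective {d n : ℕ} (h : n + 1 ≤ d + 4) : Function.Surjective (fold d n) := by
  intro j
  refine ⟨⟨j.val, by omega⟩, ?_⟩
  apply Fin.ext
  simp only [fold]
  omega

theorem kpUle (d : ℕ) (hd : 1 ≤ d) (N : ℕ) (hN : N ≤ d + 4)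
    (p q : Fin N → EuclideanSpace ℝ (Fin d))
    (r : Fin N → ℝ) (hr : ∀ i, 0 < r i) (h : ∀ i j, dist (q i) (q j) ≤ dist (p i) (p j)) :
    volume (⋃ i, Metric.closedBall (q i) (r i)) ≤
      volume (⋃ i, Metric.closedBall (p i) (r i)) := by
  rcases N with _ | n
  · simp
  · have hs := fold_surjective hN
    have key := kpU d hd (p ∘ fold d n) (q ∘ fold d n) (r ∘ fold d n) (fun i => hr _)
      (fun i j => h _ _)
    have h1 := hs.iUnion_comp (fun i => Metric.closedBall (q i) (r i))
    have h2 := hs.iUnion_comp (fun i => Metric.closedBall (p i) (r i))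
    rw [← h1, ← h2]
    exact key

theorem kpIle (d : ℕ) (hd : 1 ≤ d) (N : ℕ) (hN : N ≤ d + 4)
    (p q : Fin N → EuclideanSpace ℝ (Fin d))
    (r : Fin N → ℝ) (hr : ∀ i, 0 < r i) (h : ∀ i j, dist (q i) (q j) ≤ dist (p i) (p j)) :
    volume (⋂ i, Metric.closedBall (p i) (r i)) ≤
      volume (⋂ i, Metric.closedBall (q i) (r i)) := by
  rcases N with _ | n
  · simp
  · have hs := fold_surjective hN
    have key := kpI d hd (p ∘ fold d n) (q ∘ fold d n) (r ∘ fold d n) (fun i => hr _)
      (fun i j => h _ _)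
    have h1 := hs.iInter_comp (fun i => Metric.closedBall (q i) (r i))
    have h2 := hs.iInter_comp (fun i => Metric.closedBall (p i) (r i))
    rw [← h1, ← h2]
    exact key

end Pool.Agent.Helper15.KPI
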