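import Pool.Agent.Helper15.KPI.Cells
import Pool.Agent.Helper15.KPI.Cong
import Pool.Agent.Helper15.KP.Path

set_option autoImplicit false

open MeasureTheory Set Filter Topology

noncomputable section

namespace Pool.Agent.Helper15.KPI

open Pool.Agent.Helper15.KP

theorem J_mono_path (κ : ℝ → ℝ) (hκ : ContDiff ℝ 2 κ) (hc : HasCompactSupport κ)
    (h0 : ∀ s, 0 ≤ κ s) {m : ℕ} (hm : 3 ≤ m) (R : Fin (m + 2) → ℝ)
    (c : Matrix (Fin (m + 1)) (Fin (m + 1)) ℝ) (hcd : c.det ≠ 0) (a b : Fin (m + 1) → ℝ)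
    (ha : ∀ l, 0 < a l) (hb : ∀ l, 0 < b l)
    (hle : ∀ i j, ∑ l, b l * (cc c i l - cc c j l) ^ 2 ≤ ∑ l, a l * (cc c i l - cc c j l) ^ 2) :
    J (fun s => - deriv κ s) R (fun i l => cc c i l * Real.sqrt (a l)) ≤
      J (fun s => - deriv κ s) R (fun i l => cc c i l * Real.sqrt (b l)) := by
  set Φ : ℝ → ℝ := fun s => - deriv κ s with hΦdef
  have hΦ : ContDiff ℝ 1 Φ := by
    have : ContDiff ℝ 1 (deriv κ) := by
      have h := (contDiff_succ_iff_deriv (n := 1) (f := κ)).1
        (by simpa [one_add_one_eq_two] using hκ)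
      exact h.2.2
    exact this.neg
  have hs : HasCompactSupport Φ := hc.deriv.neg
  let ρ : ℝ → Fin (m + 1) → ℝ := fun t l => Real.sqrt ((1 - t) * a l + t * b l)
  let X : ℝ → Fin (m + 2) → Fin (m + 1) → ℝ := fun t i l => cc c i l * ρ t l
  have hpos : ∀ t ∈ Icc (0 : ℝ) 1, ∀ l, 0 < (1 - t) * a l + t * b l := by
    intro t ht l
    rcases eq_or_lt_of_le ht.1 with h | h
    · rw [← h]; simpa using ha l
    · have h1 : 0 ≤ (1 - t) * a l := mul_nonneg (by linarith [ht.2]) (ha l).le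
      have h2 : 0 < t * b l := mul_pos h (hb l)
      linarith
  have hmono : MonotoneOn (fun t => J Φ R (X t)) (Icc (0 : ℝ) 1) := by
    refine monotoneOn_of_deriv_nonneg (convex_Icc 0 1) ?_ ?_ ?_
    · refine Continuous.continuousOn ?_
      refine (continuous_J Φ hΦ.continuous hs R).comp ?_
      refine continuous_pi fun i => continuous_pi fun l => ?_
      refine continuous_const.mul ?_
      refine Real.continuous_sqrt.comp ?_
      fun_prop
    all_goals
      have key : ∀ t ∈ Ioo (0 : ℝ) 1, ∃ D : ℝ, 0 ≤ D ∧ HasDerivAt (fun t => J Φ R (X t)) D t := by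
        intro t ht
        have hpt := hpos t (Ioo_subset_Icc_self ht)
        have hρt : ∀ l, 0 < ρ t l := fun l => Real.sqrt_pos.2 (hpt l)
        have hd : ∀ l, HasDerivAt (fun t => ρ t l) ((b l - a l) / (2 * ρ t l)) t := by
          intro l
          have h1 : HasDerivAt (fun t => (1 - t) * a l + t * b l) (b l - a l) t := by
            have h2 : HasDerivAt (fun t : ℝ => (1 - t) * a l) ((-1) * a l) t :=
              ((hasDerivAt_id t).const_sub 1).mul_const (a l)
            have h3 : HasDerivAt (fun t : ℝ => t * b l) (1 * b l) t :=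
              (hasDerivAt_id t).mul_const (b l)
            have h4 := h2.add h3
            have h5 : (-1) * a l + 1 * b l = b l - a l := by ring
            rw [h5] at h4
            exact h4
          exact h1.sqrt (hpt l).ne'
        have hcd1 : ∀ l, ContDiffAt ℝ 1 (fun t => ρ t l) t := by
          intro l
          refine ContDiffAt.sqrt ?_ (hpt l).ne'
          fun_prop
        let v : Fin (m + 2) → Fin (m + 1) → ℝ := fun i l =>
          cc c i l * ((b l - a l) / (2 * ρ t l))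
        have hAI := affineIndependent_path c hcd (ρ t) hρt
        have hDer := hasDerivAt_J Φ hΦ hs R X v t
          (fun k l => contDiffAt_const.mul (hcd1 l)) (fun k l => (hd l).const_mul _)
          (fun i j hij => fun h => hij (hAI.injective h))
        refine ⟨_, ?_, hDer⟩
        refine cells_nonneg κ hκ hc h0 hm (X t) hAI R v ?_
        intro i j
        have h1 : ∑ l, (v i l - v j l) * (X t i l - X t j l) =
            (∑ l, b l * (cc c i l - cc c j l) ^ 2 - ∑ l, a l * (cc c i l - cc c j l) ^ 2) / 2 := by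
          rw [← Finset.sum_sub_distrib, Finset.sum_div]
          refine Finset.sum_congr rfl fun l _ => ?_
          have := (hρt l).ne'
          simp only [v, X]
          field_simp
        rw [h1]
        have := hle i j
        linarith
    · intro t ht
      rw [interior_Icc] at ht
      obtain ⟨D, _, hD⟩ := key t ht
      exact hD.differentiableAt.differentiableWithinAt
    · intro t ht
      rw [interior_Icc] at ht
      obtain ⟨D, hD0, hD⟩ := key t ht
      rw [hD.deriv]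
      exact hD0
  have := hmono (left_mem_Icc.2 zero_le_one) (right_mem_Icc.2 zero_le_one) zero_le_one
  simpa [X, ρ] using this

theorem J_mono (κ : ℝ → ℝ) (hκ : ContDiff ℝ 2 κ) (hc : HasCompactSupport κ)
    (h0 : ∀ s, 0 ≤ κ s) {m : ℕ} (hm : 3 ≤ m) (R : Fin (m + 2) → ℝ)
    (P Q : Fin (m + 2) → Fin (m + 1) → ℝ) (hPQ : ∀ i j, sq (Q i) (Q j) ≤ sq (P i) (P j)) :
    J (fun s => - deriv κ s) R P ≤ J (fun s => - deriv κ s) R Q := by
  set Φ : ℝ → ℝ := fun s => - deriv κ s with hΦdef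
  have hΦc : Continuous Φ := (hκ.continuous_deriv (by norm_num)).neg
  have hs : HasCompactSupport Φ := hc.deriv.neg
  -- for every ε there are perturbed configurations
  have step : ∀ ε : ℝ, 0 < ε → ∃ X Y : Fin (m + 2) → Fin (m + 1) → ℝ,
      (∀ i j, sq (X i) (X j) = sq (P i) (P j) +
        ε * sq (cc (1 : Matrix (Fin (m + 1)) (Fin (m + 1)) ℝ) i) (cc 1 j)) ∧
      (∀ i j, sq (Y i) (Y j) = sq (Q i) (Q j) +
        ε * sq (cc (1 : Matrix (Fin (m + 1)) (Fin (m + 1)) ℝ) i) (cc 1 j)) ∧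
      X 0 = 0 ∧ Y 0 = 0 ∧ J Φ R X ≤ J Φ R Y := by
    intro ε hε
    obtain ⟨c, a, b, hcd, ha, hb, hA, hB⟩ := Pool.Agent.Helper41.KP.simul_diag _ _ (posDef_gram P ε hε)
      (posDef_gram Q ε hε)
    have hdA := dist_of_gram P ε c a hA
    have hdB := dist_of_gram Q ε c b hB
    refine ⟨fun i l => cc c i l * Real.sqrt (a l), fun i l => cc c i l * Real.sqrt (b l),
      ?_, ?_, ?_, ?_, ?_⟩
    · intro i j
      rw [← hdA]
      refine Finset.sum_congr rfl fun l _ => ?_
      rw [← sub_mul, mul_pow, Real.sq_sqrt (ha l).le, mul_comm]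
    · intro i j
      rw [← hdB]
      refine Finset.sum_congr rfl fun l _ => ?_
      rw [← sub_mul, mul_pow, Real.sq_sqrt (hb l).le, mul_comm]
    · funext l; simp [cc]
    · funext l; simp [cc]
    · refine J_mono_path κ hκ hc h0 hm R c hcd a b ha hb ?_
      intro i j
      rw [hdA, hdB]
      linarith [hPQ i j]
  choose! X Y hX hY hX0 hY0 hXY using step
  let εn : ℕ → ℝ := fun n => 1 / ((n : ℝ) + 1)
  have hεn : ∀ n, 0 < εn n := fun n => by positivity
  have hεn1 : ∀ n, εn n ≤ 1 := fun n => by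
    simp only [εn]
    rw [div_le_one (by positivity)]
    linarith [(Nat.cast_nonneg n : (0 : ℝ) ≤ n)]
  have hεt : Tendsto εn atTop (𝓝 0) := tendsto_one_div_add_atTop_nhds_zero_nat
  -- a bound
  have bound : ∀ (Z : ℕ → Fin (m + 2) → Fin (m + 1) → ℝ) (S : Fin (m + 2) → Fin (m + 1) → ℝ),
      (∀ n i j, sq (Z n i) (Z n j) = sq (S i) (S j) +
        εn n * sq (cc (1 : Matrix (Fin (m + 1)) (Fin (m + 1)) ℝ) i) (cc 1 j)) →
      (∀ n, Z n 0 = 0) → ∃ r, ∀ n, Z n ∈ Metric.closedBall (0 : Fin (m + 2) → Fin (m + 1) → ℝ) r := by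
    intro Z S hZ hZ0
    let C : ℝ := ∑ i, (sq (S i) (S 0) +
      sq (cc (1 : Matrix (Fin (m + 1)) (Fin (m + 1)) ℝ) i) (cc 1 0))
    have hsqnn : ∀ u v : Fin (m + 1) → ℝ, 0 ≤ sq u v := fun u v =>
      Finset.sum_nonneg fun l _ => sq_nonneg _
    refine ⟨Real.sqrt C, fun n => ?_⟩
    rw [mem_closedBall_zero_iff, pi_norm_le_iff_of_nonneg (Real.sqrt_nonneg _)]
    intro i
    rw [pi_norm_le_iff_of_nonneg (Real.sqrt_nonneg _)]
    intro l
    rw [Real.norm_eq_abs]
    refine Real.le_sqrt_of_sq_le ?_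
    rw [sq_abs]
    have h1 : (Z n i l) ^ 2 ≤ sq (Z n i) (Z n 0) := by
      have h2 := Finset.single_le_sum (f := fun l => (Z n i l - Z n 0 l) ^ 2)
        (fun l _ => sq_nonneg _) (Finset.mem_univ l)
      simpa [Pool.Agent.Helper15.KP.sq, hZ0 n] using h2
    have h3 : sq (Z n i) (Z n 0) ≤ sq (S i) (S 0) +
        sq (cc (1 : Matrix (Fin (m + 1)) (Fin (m + 1)) ℝ) i) (cc 1 0) := by
      rw [hZ n i 0]
      have := mul_le_of_le_one_left
        (hsqnn (cc (1 : Matrix (Fin (m + 1)) (Fin (m + 1)) ℝ) i) (cc 1 0)) (hεn1 n)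
      linarith
    have h4 : sq (S i) (S 0) + sq (cc (1 : Matrix (Fin (m + 1)) (Fin (m + 1)) ℝ) i) (cc 1 0) ≤ C :=
      Finset.single_le_sum (f := fun i => sq (S i) (S 0) +
        sq (cc (1 : Matrix (Fin (m + 1)) (Fin (m + 1)) ℝ) i) (cc 1 0))
        (fun i _ => add_nonneg (hsqnn _ _) (hsqnn _ _)) (Finset.mem_univ i)
    linarith
  obtain ⟨r1, hr1⟩ := bound (fun n => X (εn n)) P (fun n => hX _ (hεn n)) (fun n => hX0 _ (hεn n))
  obtain ⟨r2, hr2⟩ := bound (fun n => Y (εn n)) Q (fun n => hY _ (hεn n)) (fun n => hY0 _ (hεn n))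
  obtain ⟨⟨Xs, Ys⟩, _, φ, hφ, hlim⟩ :=
    ((isCompact_closedBall (0 : Fin (m + 2) → Fin (m + 1) → ℝ) r1).prod
      (isCompact_closedBall (0 : Fin (m + 2) → Fin (m + 1) → ℝ) r2)).tendsto_subseq
      (x := fun n => (X (εn n), Y (εn n))) (fun n => ⟨hr1 n, hr2 n⟩)
  have hXs : Tendsto (fun n => X (εn (φ n))) atTop (𝓝 Xs) :=
    (continuous_fst.tendsto _).comp hlim
  have hYs : Tendsto (fun n => Y (εn (φ n))) atTop (𝓝 Ys) :=
    (continuous_snd.tendsto _).comp hlim
  have hsq : ∀ i j, Continuous fun Z : Fin (m + 2) → Fin (m + 1) → ℝ => sq (Z i) (Z j) := by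
    intro i j
    unfold Pool.Agent.Helper15.KP.sq
    fun_prop
  have hlimd : ∀ (S : Fin (m + 2) → Fin (m + 1) → ℝ) (i j : Fin (m + 2)),
      Tendsto (fun n => sq (S i) (S j) + εn (φ n) *
        sq (cc (1 : Matrix (Fin (m + 1)) (Fin (m + 1)) ℝ) i) (cc 1 j)) atTop
        (𝓝 (sq (S i) (S j))) := by
    intro S i j
    have h1 := ((hεt.comp hφ.tendsto_atTop).mul_const
      (sq (cc (1 : Matrix (Fin (m + 1)) (Fin (m + 1)) ℝ) i) (cc 1 j))).const_add (sq (S i) (S j))
    simpa using h1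
  have hdX : ∀ i j, sq (Xs i) (Xs j) = sq (P i) (P j) := by
    intro i j
    have h1 := ((hsq i j).tendsto Xs).comp hXs
    refine tendsto_nhds_unique h1 ?_
    refine (hlimd P i j).congr fun n => ?_
    exact (hX _ (hεn _) i j).symm
  have hdY : ∀ i j, sq (Ys i) (Ys j) = sq (Q i) (Q j) := by
    intro i j
    have h1 := ((hsq i j).tendsto Ys).comp hYs
    refine tendsto_nhds_unique h1 ?_
    refine (hlimd Q i j).congr fun n => ?_
    exact (hY _ (hεn _) i j).symm
  rw [← J_congr Φ R Xs P hdX, ← J_congr Φ R Ys Q hdY]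
  have hcI := continuous_J (m := m + 1) Φ hΦc hs R
  exact le_of_tendsto_of_tendsto ((hcI.tendsto Xs).comp hXs) ((hcI.tendsto Ys).comp hYs)
    (Eventually.of_forall fun n => hXY _ (hεn _))

end Pool.Agent.Helper15.KPI
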